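import Pool.Agent.Helper27.PRI.Low
open MeasureTheory Metric Set Filter Topology
open scoped ENNReal NNReal

/-! The tree with four branching points in space: `4 ≤ N d t` for `d ≥ 3` and `t > 413 / 1000`. -/

namespace H11ST
namespace PRI27
open TET27 P6

variable {d : ℕ} {e f g : E d}

/-- the three horizontal directions -/
noncomputable def U (e f g : E d) : Fin 3 → E d :=
  ![p3 e f g 0 1 0, p3 e f g (1 / 2) (-(1 / 2)) 0, p3 e f g (-(1 / 2)) (-(1 / 2)) 0]

/-- the vertical vector of norm `√3` -/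
noncomputable def G (e f g : E d) : E d := p3 e f g 0 0 1

/-- inner tripod points -/
noncomputable def Ak (e f g : E d) (k : Fin 3) : E d := (413 / 1000 : ℝ) • U e f g k

/-- the corners `s = ±1` -/
noncomputable def Bk (e f g : E d) (k : Fin 3) (s : ℝ) : E d :=
  (7767 / 10000 : ℝ) • U e f g k + (s * (3637 / 10000)) • G e f g

theorem UU (h : ON e f g) (i : Fin 3) : inner ℝ (U e f g i) (U e f g i) = (1 : ℝ) := by
  fin_cases i <;>
    (simp only [U, Fin.zero_eta, Fin.mk_one, Fin.reduceFinMk, Matrix.cons_val_zero,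
        Matrix.cons_val_one, Matrix.cons_val]
     rw [inner_p3 h]; norm_num)

theorem UV (h : ON e f g) {i j : Fin 3} (hij : i ≠ j) :
    inner ℝ (U e f g i) (U e f g j) = (-(1 / 2) : ℝ) := by
  fin_cases i <;> fin_cases j <;> first
    | exact absurd rfl hij
    | (simp only [U, Fin.zero_eta, Fin.mk_one, Fin.reduceFinMk, Matrix.cons_val_zero,
        Matrix.cons_val_one, Matrix.cons_val]
       rw [inner_p3 h]; norm_num)

theorem UG (h : ON e f g) (i : Fin 3) : inner ℝ (U e f g i) (G e f g) = (0 : ℝ) := by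
  fin_cases i <;>
    (simp only [U, G, Fin.zero_eta, Fin.mk_one, Fin.reduceFinMk, Matrix.cons_val_zero,
        Matrix.cons_val_one, Matrix.cons_val]
     rw [inner_p3 h]; norm_num)

theorem GU (h : ON e f g) (i : Fin 3) : inner ℝ (G e f g) (U e f g i) = (0 : ℝ) := by
  rw [real_inner_comm]; exact UG h i

theorem GG (h : ON e f g) : inner ℝ (G e f g) (G e f g) = (3 : ℝ) := by
  rw [G, inner_p3 h]; norm_num

theorem Unorm (h : ON e f g) (i : Fin 3) : ‖U e f g i‖ = 1 := by
  have h1 := UU h i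
  rw [real_inner_self_eq_norm_sq] at h1
  nlinarith [norm_nonneg (U e f g i)]

/-- the norm of a combination -/
theorem comb_sq (h : ON e f g) (i : Fin 3) (a b : ℝ) :
    ‖a • U e f g i + b • G e f g‖ ^ 2 = a ^ 2 + 3 * b ^ 2 := by
  rw [← real_inner_self_eq_norm_sq]
  simp only [inner_add_left, inner_add_right, inner_smul_left, inner_smul_right, UU h, UG h, GU h,
    GG h, conj_trivial]
  ring

theorem comb_norm (h : ON e f g) (i : Fin 3) {a b l : ℝ} (hl : 0 ≤ l)
    (h0 : a ^ 2 + 3 * b ^ 2 = l ^ 2) : ‖a • U e f g i + b • G e f g‖ = l := by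
  have h1 := comb_sq h i a b
  rw [h0] at h1
  exact (sq_eq_sq₀ (norm_nonneg _) hl).1 h1

/-- one branch -/
def Sk (e f g : E d) (k : Fin 3) : Set (E d) :=
  segment ℝ 0 (Ak e f g k) ∪ (segment ℝ (Ak e f g k) (Bk e f g k 1) ∪
    segment ℝ (Ak e f g k) (Bk e f g k (-1)))

/-- the tree -/
def T3 (e f g : E d) : Set (E d) := Sk e f g 0 ∪ (Sk e f g 1 ∪ Sk e f g 2)

theorem Sk_sub (k : Fin 3) : Sk e f g k ⊆ T3 e f g := by
  rw [T3]
  fin_cases k
  · exact subset_union_left
  · exact subset_union_left.trans subset_union_right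
  · exact subset_union_right.trans subset_union_right

theorem mem_T3 {z : E d} : z ∈ T3 e f g ↔ ∃ k, z ∈ Sk e f g k := by
  constructor
  · rintro (h | h | h)
    · exact ⟨0, h⟩
    · exact ⟨1, h⟩
    · exact ⟨2, h⟩
  · rintro ⟨k, h⟩
    exact Sk_sub k h

theorem zero_mem_Sk (k : Fin 3) : (0 : E d) ∈ Sk e f g k := Or.inl (left_mem_segment ℝ _ _)

theorem Sk_closed (k : Fin 3) : IsClosed (Sk e f g k) :=
  (seg_closed _ _).union ((seg_closed _ _).union (seg_closed _ _))

theorem Sk_conn (k : Fin 3) : IsPreconnected (Sk e f g k) := by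
  rw [Sk]
  refine IsPreconnected.union (Ak e f g k) (right_mem_segment ℝ _ _)
    (Or.inl (left_mem_segment ℝ _ _)) (convex_segment _ _).isPreconnected ?_
  exact IsPreconnected.union (Ak e f g k) (left_mem_segment ℝ _ _) (left_mem_segment ℝ _ _)
    (convex_segment _ _).isPreconnected (convex_segment _ _).isPreconnected

theorem T3_closed : IsClosed (T3 e f g) :=
  (Sk_closed _).union ((Sk_closed _).union (Sk_closed _))

theorem T3_conn : IsConnected (T3 e f g) := by
  refine ⟨⟨0, Or.inl (zero_mem_Sk 0)⟩, ?_⟩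
  rw [T3]
  refine IsPreconnected.union 0 (zero_mem_Sk 0) (Or.inl (zero_mem_Sk 1)) (Sk_conn 0) ?_
  exact IsPreconnected.union 0 (zero_mem_Sk 1) (zero_mem_Sk 2) (Sk_conn 1) (Sk_conn 2)

theorem Sk_len (h : ON e f g) (k : Fin 3) :
    μH[1] (Sk e f g k) ≤ ENNReal.ofReal (413 / 1000 + 2 * (3637 / 5000)) := by
  have e1 : edist (0 : E d) (Ak e f g k) = ENNReal.ofReal (413 / 1000) := by
    rw [edist_dist, dist_zero_left, Ak, norm_smul, Unorm h, mul_one, Real.norm_eq_abs,
      abs_of_pos (by norm_num)]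
  have key : ∀ s : ℝ, s ^ 2 = 1 →
      edist (Ak e f g k) (Bk e f g k s) = ENNReal.ofReal (3637 / 5000) := by
    intro s hs
    rw [edist_dist, dist_eq_norm, ← norm_neg]
    have e2 : -(Ak e f g k - Bk e f g k s) =
        (3637 / 10000 : ℝ) • U e f g k + (s * (3637 / 10000)) • G e f g := by
      rw [Ak, Bk]
      module
    rw [e2, comb_norm h k (l := 3637 / 5000) (by norm_num)]
    rw [mul_pow, hs]; norm_num
  have hs : (413 / 1000 + 2 * (3637 / 5000) : ℝ) = 413 / 1000 + (3637 / 5000 + 3637 / 5000) := by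
    norm_num
  rw [hs, ENNReal.ofReal_add (by positivity) (by positivity),
    ENNReal.ofReal_add (by positivity) (by positivity), Sk]
  refine (measure_union_le _ _).trans (add_le_add ?_ ((measure_union_le _ _).trans
    (add_le_add ?_ ?_)))
  · rw [hausdorffMeasure_segment, e1]
  · rw [hausdorffMeasure_segment, key 1 (by norm_num)]
  · rw [hausdorffMeasure_segment, key (-1) (by norm_num)]

theorem T3_len (h : ON e f g) : μH[1] (T3 e f g) ≤ ENNReal.ofReal (28017 / 5000) := by
  obtain ⟨c, hc⟩ : ∃ c : ℝ, c = 413 / 1000 + 2 * (3637 / 5000) := ⟨_, rfl⟩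
  have hc0 : 0 ≤ c := by rw [hc]; norm_num
  have hS : ∀ k, μH[1] (Sk e f g k) ≤ ENNReal.ofReal c := fun k => by rw [hc]; exact Sk_len h k
  have hs : (28017 / 5000 : ℝ) = c + (c + c) := by rw [hc]; norm_num
  rw [hs, ENNReal.ofReal_add hc0 (by positivity), ENNReal.ofReal_add hc0 hc0, T3]
  exact (measure_union_le _ _).trans (add_le_add (hS 0) ((measure_union_le _ _).trans
    (add_le_add (hS 1) (hS 2))))

/-- the terminals are the corners -/
theorem Q_eq (i : Fin 6) : ∃ k : Fin 3, ∃ s : ℝ, (s = 1 ∨ s = -1) ∧ Q e f g i = Bk e f g k s := by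
  have key : ∀ (k : Fin 3) (s x y z : ℝ), Bk e f g k s = p3 e f g x y z →
      ∀ x' y' z' : ℝ, x = x' → y = y' → z = z' → p3 e f g x' y' z' = Bk e f g k s := by
    rintro k s x y z h1 _ _ _ rfl rfl rfl
    exact h1.symm
  have hB : ∀ s : ℝ, Bk e f g 0 s = p3 e f g 0 (7767 / 10000) (s * (3637 / 10000)) := by
    intro s
    rw [Bk, U, G]
    simp only [Matrix.cons_val_zero]
    rw [p3_smul, p3_smul, p3_add]
    congr 1 <;> ring
  have hB1 : ∀ s : ℝ, Bk e f g 1 s =
      p3 e f g (7767 / 20000) (-(7767 / 20000)) (s * (3637 / 10000)) := by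
    intro s
    rw [Bk, U, G]
    simp only [Matrix.cons_val_one, Matrix.cons_val_zero]
    rw [p3_smul, p3_smul, p3_add]
    congr 1 <;> ring
  have hB2 : ∀ s : ℝ, Bk e f g 2 s =
      p3 e f g (-(7767 / 20000)) (-(7767 / 20000)) (s * (3637 / 10000)) := by
    intro s
    rw [Bk, U, G]
    simp only [Matrix.cons_val]
    rw [p3_smul, p3_smul, p3_add]
    congr 1 <;> ring
  have q0 : Q e f g 0 = iv e f g 20000 (0, 15534, 7274) := rfl
  have q1 : Q e f g 1 = iv e f g 20000 (0, 15534, -7274) := rfl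
  have q2 : Q e f g 2 = iv e f g 20000 (7767, -7767, 7274) := rfl
  have q3 : Q e f g 3 = iv e f g 20000 (7767, -7767, -7274) := rfl
  have q4 : Q e f g 4 = iv e f g 20000 (-7767, -7767, 7274) := rfl
  have q5 : Q e f g 5 = iv e f g 20000 (-7767, -7767, -7274) := rfl
  fin_cases i
  · exact ⟨0, 1, Or.inl rfl, q0.trans (key _ _ _ _ _ (hB 1) _ _ _ (by norm_num) (by norm_num)
      (by norm_num))⟩
  · exact ⟨0, -1, Or.inr rfl, q1.trans (key _ _ _ _ _ (hB (-1)) _ _ _ (by norm_num) (by norm_num)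
      (by norm_num))⟩
  · exact ⟨1, 1, Or.inl rfl, q2.trans (key _ _ _ _ _ (hB1 1) _ _ _ (by norm_num) (by norm_num)
      (by norm_num))⟩
  · exact ⟨1, -1, Or.inr rfl, q3.trans (key _ _ _ _ _ (hB1 (-1)) _ _ _ (by norm_num) (by norm_num)
      (by norm_num))⟩
  · exact ⟨2, 1, Or.inl rfl, q4.trans (key _ _ _ _ _ (hB2 1) _ _ _ (by norm_num) (by norm_num)
      (by norm_num))⟩
  · exact ⟨2, -1, Or.inr rfl, q5.trans (key _ _ _ _ _ (hB2 (-1)) _ _ _ (by norm_num) (by norm_num)
      (by norm_num))⟩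

theorem Q_sub : range (Q e f g) ⊆ T3 e f g := by
  rintro _ ⟨i, rfl⟩
  obtain ⟨k, s, hs, h⟩ := Q_eq (e := e) (f := f) (g := g) i
  rw [h]
  refine Sk_sub k (Or.inr ?_)
  rcases hs with rfl | rfl
  · exact Or.inl (right_mem_segment ℝ _ _)
  · exact Or.inr (right_mem_segment ℝ _ _)

theorem Qnorm (h : ON e f g) (i : Fin 6) : 1 ≤ ‖Q e f g i‖ := by
  obtain ⟨k, s, hs, h1⟩ := Q_eq (e := e) (f := f) (g := g) i
  have h2 := comb_sq h k (7767 / 10000) (s * (3637 / 10000))
  rw [h1, Bk]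
  have h3 : s ^ 2 = 1 := by rcases hs with rfl | rfl <;> norm_num
  rw [mul_pow, h3] at h2
  nlinarith [norm_nonneg ((7767 / 10000 : ℝ) • U e f g k + (s * (3637 / 10000)) • G e f g)]

/-- half spaces are convex -/
theorem seg_ge {u p q : E d} {c : ℝ} (hp : c ≤ inner ℝ u p) (hq : c ≤ inner ℝ u q) {z : E d}
    (hz : z ∈ segment ℝ p q) : c ≤ inner ℝ u z := by
  rw [segment_eq_image] at hz
  obtain ⟨θ, ⟨h0, h1⟩, rfl⟩ := hz
  simp only [inner_add_right, inner_smul_right]
  nlinarith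

theorem seg_le {u p q : E d} {c : ℝ} (hp : inner ℝ u p ≤ c) (hq : inner ℝ u q ≤ c) {z : E d}
    (hz : z ∈ segment ℝ p q) : inner ℝ u z ≤ c := by
  rw [segment_eq_image] at hz
  obtain ⟨θ, ⟨h0, h1⟩, rfl⟩ := hz
  simp only [inner_add_right, inner_smul_right]
  nlinarith

theorem in_A (h : ON e f g) (k : Fin 3) : inner ℝ (U e f g k) (Ak e f g k) = (413 / 1000 : ℝ) := by
  rw [Ak, inner_smul_right, UU h, mul_one]

theorem in_B (h : ON e f g) (k : Fin 3) (s : ℝ) :
    inner ℝ (U e f g k) (Bk e f g k s) = (7767 / 10000 : ℝ) := by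
  rw [Bk, inner_add_right, inner_smul_right, inner_smul_right, UU h, UG h]; ring

theorem in_A' (h : ON e f g) {k j : Fin 3} (hkj : k ≠ j) :
    inner ℝ (U e f g k) (Ak e f g j) ≤ (0 : ℝ) := by
  rw [Ak, inner_smul_right, UV h hkj]; norm_num

theorem in_B' (h : ON e f g) {k j : Fin 3} (hkj : k ≠ j) (s : ℝ) :
    inner ℝ (U e f g k) (Bk e f g j s) ≤ (0 : ℝ) := by
  rw [Bk, inner_add_right, inner_smul_right, inner_smul_right, UV h hkj, UG h]; norm_num

theorem in_ball (h : ON e f g) (k : Fin 3) {p z : E d} {ε : ℝ} (hz : z ∈ ball p ε) :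
    |inner ℝ (U e f g k) z - inner ℝ (U e f g k) p| < ε := by
  rw [mem_ball, dist_eq_norm] at hz
  rw [← inner_sub_right]
  have h4 := abs_real_inner_le_norm (U e f g k) (z - p)
  rw [Unorm h, one_mul] at h4
  linarith

/-- the outer part -/
def Ok (e f g : E d) (k : Fin 3) : Set (E d) :=
  segment ℝ (Ak e f g k) (Bk e f g k 1) ∪ segment ℝ (Ak e f g k) (Bk e f g k (-1))

theorem Tri0 (h : ON e f g) : Tri (T3 e f g) 0 (U e f g) (413 / 1000) := by
  refine tri_of_segments (l := fun _ => 413 / 1000) (R := ⋃ k, Ok e f g k) (by norm_num)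
    (Unorm h) (fun i j hij => UV h hij) (fun _ => le_rfl) ?_ ?_
  · ext z
    rw [mem_T3, mem_union, mem_iUnion, mem_iUnion]
    constructor
    · rintro ⟨k, hz | hz⟩
      · exact Or.inl ⟨k, by rw [zero_add]; exact hz⟩
      · exact Or.inr ⟨k, hz⟩
    · rintro (⟨k, hz⟩ | ⟨k, hz⟩)
      · rw [zero_add] at hz; exact ⟨k, Or.inl hz⟩
      · exact ⟨k, Or.inr hz⟩
  · intro z hz hb
    obtain ⟨k, hz⟩ := mem_iUnion.1 hz
    have h1 := in_ball h k hb
    rw [inner_zero_right, sub_zero, abs_lt] at h1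
    have h2 : (413 / 1000 : ℝ) ≤ inner ℝ (U e f g k) z := by
      rcases hz with hz | hz
      · exact seg_ge (in_A h k).ge (by rw [in_B h]; norm_num) hz
      · exact seg_ge (in_A h k).ge (by rw [in_B h]; norm_num) hz
    linarith [h1.2]

/-- directions at `Ak` -/
noncomputable def Vk (e f g : E d) (k : Fin 3) : Fin 3 → E d :=
  ![(-1 : ℝ) • U e f g k + (0 : ℝ) • G e f g, (1 / 2 : ℝ) • U e f g k + (1 / 2 : ℝ) • G e f g,
    (1 / 2 : ℝ) • U e f g k + (-(1 / 2) : ℝ) • G e f g]

theorem Vnorm (h : ON e f g) (k i : Fin 3) : ‖Vk e f g k i‖ = 1 := by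
  fin_cases i
  · exact comb_norm h k (by norm_num) (by norm_num)
  · exact comb_norm h k (by norm_num) (by norm_num)
  · exact comb_norm h k (by norm_num) (by norm_num)

theorem Vang (h : ON e f g) (k i j : Fin 3) (hij : i ≠ j) :
    inner ℝ (Vk e f g k i) (Vk e f g k j) = -(1 / 2 : ℝ) := by
  fin_cases i <;> fin_cases j <;> first
    | exact absurd rfl hij
    | (simp only [Vk, Fin.zero_eta, Fin.mk_one, Fin.reduceFinMk, Matrix.cons_val_zero,
        Matrix.cons_val_one, Matrix.cons_val]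
       simp only [inner_add_left, inner_add_right, inner_smul_left, inner_smul_right, UU h, UG h,
        GU h, GG h, conj_trivial]
       norm_num)

/-- the lengths at `Ak` -/
noncomputable def Lk : Fin 3 → ℝ := ![413 / 1000, 3637 / 5000, 3637 / 5000]

theorem end0 (k : Fin 3) : Ak e f g k + Lk 0 • Vk e f g k 0 = 0 := by
  have h0 : Lk 0 = 413 / 1000 := rfl
  have h1 : Vk e f g k 0 = (-1 : ℝ) • U e f g k + (0 : ℝ) • G e f g := rfl
  rw [h0, h1, Ak]; module

theorem end1 (k : Fin 3) : Ak e f g k + Lk 1 • Vk e f g k 1 = Bk e f g k 1 := by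
  have h0 : Lk 1 = 3637 / 5000 := rfl
  have h1 : Vk e f g k 1 = (1 / 2 : ℝ) • U e f g k + (1 / 2 : ℝ) • G e f g := rfl
  rw [h0, h1, Ak, Bk]; module

theorem end2 (k : Fin 3) : Ak e f g k + Lk 2 • Vk e f g k 2 = Bk e f g k (-1) := by
  have h0 : Lk 2 = 3637 / 5000 := rfl
  have h1 : Vk e f g k 2 = (1 / 2 : ℝ) • U e f g k + (-(1 / 2) : ℝ) • G e f g := rfl
  rw [h0, h1, Ak, Bk]; module

theorem Trik (h : ON e f g) (k : Fin 3) :
    Tri (T3 e f g) (Ak e f g k) (Vk e f g k) (413 / 1000) := by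
  refine tri_of_segments (l := Lk) (R := {z | ∃ j, j ≠ k ∧ z ∈ Sk e f g j}) (by norm_num)
    (Vnorm h k) (Vang h k) ?_ ?_ ?_
  · intro i
    fin_cases i
    · exact le_of_eq rfl
    · exact (show (413 / 1000 : ℝ) ≤ 3637 / 5000 by norm_num)
    · exact (show (413 / 1000 : ℝ) ≤ 3637 / 5000 by norm_num)
  · ext z
    rw [mem_T3, mem_union, mem_iUnion, mem_ofPred_eq]
    constructor
    · rintro ⟨j, hz⟩
      by_cases hjk : j = k
      · subst hjk
        rcases hz with hz | hz | hz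
        · exact Or.inl ⟨0, by rw [end0, segment_symm]; exact hz⟩
        · exact Or.inl ⟨1, by rw [end1]; exact hz⟩
        · exact Or.inl ⟨2, by rw [end2]; exact hz⟩
      · exact Or.inr ⟨j, hjk, hz⟩
    · rintro (⟨i, hz⟩ | ⟨j, -, hz⟩)
      · refine ⟨k, ?_⟩
        match i, hz with
        | 0, hz => rw [end0, segment_symm] at hz; exact Or.inl hz
        | 1, hz => rw [end1] at hz; exact Or.inr (Or.inl hz)
        | 2, hz => rw [end2] at hz; exact Or.inr (Or.inr hz)
      · exact ⟨j, hz⟩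
  · rintro z ⟨j, hjk, hz⟩ hb
    have h1 := in_ball h k hb
    rw [in_A h, abs_lt] at h1
    have h2 : inner ℝ (U e f g k) z ≤ (0 : ℝ) := by
      rcases hz with hz | hz | hz
      · exact seg_le (by rw [inner_zero_right]) (in_A' h hjk.symm) hz
      · exact seg_le (in_A' h hjk.symm) (in_B' h hjk.symm _) hz
      · exact seg_le (in_A' h hjk.symm) (in_B' h hjk.symm _) hz
    linarith [h1.1]

theorem Anorm (h : ON e f g) (k : Fin 3) : ‖Ak e f g k‖ = 413 / 1000 := by
  rw [Ak, norm_smul, Unorm h, mul_one, Real.norm_eq_abs, abs_of_pos (by norm_num)]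

theorem notQ (h : ON e f g) {y : E d} (hy : ‖y‖ ≤ 413 / 1000) : y ∉ range (Q e f g) := by
  rintro ⟨i, rfl⟩
  have := Qnorm h i
  linarith

theorem card4 (h : ON e f g) :
    ({0, Ak e f g 0, Ak e f g 1, Ak e f g 2} : Set (E d)).encard = 4 := by
  have n0 : ∀ k, (0 : E d) ≠ Ak e f g k := by
    intro k hk
    have := Anorm h k
    rw [← hk, norm_zero] at this
    norm_num at this
  have n1 : ∀ i j : Fin 3, i ≠ j → Ak e f g i ≠ Ak e f g j := by
    intro i j hij hA
    have h1 := in_A h i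
    have h2 := in_A' h hij
    rw [← hA, h1] at h2
    norm_num at h2
  rw [encard_insert_of_notMem, encard_insert_of_notMem, encard_pair (n1 1 2 (by decide))]
  · rfl
  · rintro (h1 | h1)
    · exact n1 0 1 (by decide) h1
    · exact n1 0 2 (by decide) h1
  · rintro (h1 | h1 | h1)
    · exact n0 _ h1
    · exact n0 _ h1
    · exact n0 _ h1

/-- **four branching points in the ball of radius `t > 413 / 1000`, in every dimension `d ≥ 3`** -/
theorem four_le_N_prism : ∀ d : ℕ, 3 ≤ d → ∀ t : ℝ, 413 / 1000 < t → 4 ≤ N d t := by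
  intro d hd t ht
  obtain ⟨e, f, g, h⟩ := exists_triple hd
  have hlen : μH[1] (T3 e f g) ≤ ENNReal.ofReal (28017 / 5000) := T3_len h
  have hadm : Admissible (range (Q e f g)) (T3 e f g) 0 1 :=
    { compact := (finite_range _).isCompact
      steiner := ⟨T3_closed, by rw [union_eq_left.2 Q_sub]; exact T3_conn, fun T hT hTA =>
        hlen.trans (low h T hT hTA)⟩
      tree := T3_conn
      rpos := one_pos
      far := by
        rw [eq_empty_iff_forall_notMem]
        rintro z ⟨⟨i, rfl⟩, hzb⟩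
        rw [mem_ball, dist_zero_right] at hzb
        have := Qnorm h i
        linarith
      finite := lt_of_le_of_lt hlen ENNReal.ofReal_lt_top }
  refine le_N hadm ?_
  have hs : ({0, Ak e f g 0, Ak e f g 1, Ak e f g 2} : Set (E d)) ⊆
      {y ∈ ball (0 : E d) (t * 1) | IsBranchingPoint (range (Q e f g)) (T3 e f g) y} := by
    have key : ∀ k, Ak e f g k ∈
        {y ∈ ball (0 : E d) (t * 1) | IsBranchingPoint (range (Q e f g)) (T3 e f g) y} := by
      intro k
      refine ⟨?_, notQ h (Anorm h k).le, Vk e f g k, 413 / 1000, (Trik h k).pos, (Trik h k).norm,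
        (Trik h k).ang, (Trik h k).eq⟩
      rw [mem_ball, dist_zero_right, mul_one, Anorm h]
      exact ht
    rintro y (rfl | rfl | rfl | rfl)
    · refine ⟨?_, notQ h (by rw [norm_zero]; norm_num), U e f g, 413 / 1000, (Tri0 h).pos,
        (Tri0 h).norm, (Tri0 h).ang, (Tri0 h).eq⟩
      rw [mem_ball, dist_self, mul_one]
      linarith
    · exact key 0
    · exact key 1
    · exact key 2
  rw [← card4 h]
  exact encard_le_encard hs

end PRI27
end H11ST
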