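import Pool.Agent.Helper27.PRI.Tab
open MeasureTheory Metric Set Filter Topology
open scoped ENNReal NNReal

/-! The lower bound for the six points of `Pts`. -/

namespace H11ST
namespace PRI27
open TET27 P6

variable {d : ℕ} {e f g : E d}

theorem RA0 (h : ON e f g) {a b m k c c' : Fin 6} (hq : (a, b, m, k, c, c') ∈ L90) :
    RA e f g a b m k c c' := by
  rw [← tabA_map] at hq
  obtain ⟨x, hx, hxe⟩ := List.mem_map.1 hq
  have h1 := soundA h (List.all_eq_true.1 tabA_ok x hx)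
  rw [hxe] at h1
  exact h1

theorem RB0 (h : ON e f g) {a b m k c c' : Fin 6} (hq : (a, b, m, k, c, c') ∈ L15) :
    RB e f g a b m k c c' := by
  rw [← tabB_map] at hq
  obtain ⟨x, hx, hxe⟩ := List.mem_map.1 hq
  have h1 := soundB h (List.all_eq_true.1 tabB_ok x hx)
  rw [hxe] at h1
  exact h1

theorem RA1 (h : ON e f g) {a b m k c c' : Fin 6}
    (h1 : a < b) (h2 : c < c') (h3 : a ≠ c) (h4 : a ≠ c') (h5 : b ≠ c) (h6 : b ≠ c')
    (h7 : m ≠ a) (h8 : m ≠ b) (h9 : m ≠ c) (h10 : m ≠ c') (h11 : k ≠ a) (h12 : k ≠ b)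
    (h13 : k ≠ c) (h14 : k ≠ c') (h15 : m ≠ k) : RA e f g a b m k c c' := by
  rcases lt_or_gt_of_ne h3 with hh | hh
  · exact RA0 h (mem_L90 h1 h2 hh h5 h6 h7 h8 h9 h10 h11 h12 h13 h14 h15)
  · intro T hT
    exact RA0 h (mem_L90 h2 h1 hh h4.symm h6.symm h13 h14 h11 h12 h9 h10
      h7 h8 h15.symm) T hT.sw3

theorem RA_all (h : ON e f g) {a b m k c c' : Fin 6}
    (h1 : a ≠ b) (h2 : c ≠ c') (h3 : a ≠ c) (h4 : a ≠ c') (h5 : b ≠ c) (h6 : b ≠ c')
    (h7 : m ≠ a) (h8 : m ≠ b) (h9 : m ≠ c) (h10 : m ≠ c') (h11 : k ≠ a) (h12 : k ≠ b)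
    (h13 : k ≠ c) (h14 : k ≠ c') (h15 : m ≠ k) : RA e f g a b m k c c' := by
  intro T hT
  rcases lt_or_gt_of_ne h1 with hh | hh <;> rcases lt_or_gt_of_ne h2 with h' | h'
  · exact RA1 h hh h' h3 h4 h5 h6 h7 h8 h9 h10 h11 h12 h13 h14 h15 T hT
  · exact RA1 h hh h' h4 h3 h6 h5 h7 h8 h10 h9 h11 h12 h14 h13 h15 T hT.sw2
  · exact RA1 h hh h' h5 h6 h3 h4 h8 h7 h9 h10 h12 h11 h13 h14 h15 T hT.sw1
  · exact RA1 h hh h' h6 h5 h4 h3 h8 h7 h10 h9 h12 h11 h14 h13 h15 T hT.sw1.sw2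

theorem RB1 (h : ON e f g) {a b c m c' k : Fin 6}
    (h1 : a < b) (h2 : c < m) (h3 : c' < k) (ac : a ≠ c) (am : a ≠ m) (ag : a ≠ c') (ak : a ≠ k)
    (bc : b ≠ c) (bm : b ≠ m) (bg : b ≠ c') (bk : b ≠ k) (cg : c ≠ c') (ck : c ≠ k) (mg : m ≠ c')
    (mk : m ≠ k) : RB e f g a b c m c' k := by
  intro T hT
  rcases lt_or_gt_of_ne ac with hh | hh <;> rcases lt_or_gt_of_ne cg with h' | h' <;>
    rcases lt_or_gt_of_ne ag with h'' | h''
  · exact RB0 h (mem_L15 h1 h2 hh bc bm h3 h' bg.symm mg.symm bk.symm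
      mk.symm) T hT
  · exact absurd (hh.trans h') (not_lt_of_gt h'')
  · exact RB0 h (mem_L15 h1 h3 h'' bg bk h2 h' bc.symm ck bm.symm
      mk) T hT.p23
  · exact RB0 h (mem_L15 h3 h1 h'' ak.symm bk.symm h2 hh ck bc.symm mk
      bm.symm) T hT.p23.p12
  · exact RB0 h (mem_L15 h2 h1 hh am.symm bm.symm h3 h'' mg.symm
      bg.symm mk.symm bk.symm) T hT.p12
  · exact RB0 h (mem_L15 h2 h3 h' mg mk h1 h'' am ak bm bk)
      T hT.p12.p23
  · exact absurd (h'.trans hh) (not_lt_of_gt h'')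
  · exact RB0 h (mem_L15 h3 h2 h' ck.symm mk.symm h1 hh ak am bk bm)
      T hT.p23.p12.p23

theorem RB_all (h : ON e f g) {a b c m c' k : Fin 6}
    (h1 : a ≠ b) (h2 : c ≠ m) (h3 : c' ≠ k) (ac : a ≠ c) (am : a ≠ m) (ag : a ≠ c') (ak : a ≠ k)
    (bc : b ≠ c) (bm : b ≠ m) (bg : b ≠ c') (bk : b ≠ k) (cg : c ≠ c') (ck : c ≠ k) (mg : m ≠ c')
    (mk : m ≠ k) : RB e f g a b c m c' k := by
  intro T hT
  rcases lt_or_gt_of_ne h1 with hh | hh <;> rcases lt_or_gt_of_ne h2 with h' | h' <;>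
    rcases lt_or_gt_of_ne h3 with h'' | h''
  · exact RB1 h hh h' h'' ac am ag ak bc bm bg bk cg ck mg mk T hT
  · exact RB1 h hh h' h'' ac am ak ag bc bm bk bg ck cg mk mg T hT.sw3
  · exact RB1 h hh h' h'' am ac ag ak bm bc bg bk mg mk cg ck T hT.sw2
  · exact RB1 h hh h' h'' am ac ak ag bm bc bk bg mk mg ck cg T hT.sw2.sw3
  · exact RB1 h hh h' h'' bc bm bg bk ac am ag ak cg ck mg mk T hT.sw1
  · exact RB1 h hh h' h'' bc bm bk bg ac am ak ag ck cg mk mg T hT.sw1.sw3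
  · exact RB1 h hh h' h'' bm bc bg bk am ac ag ak mg mk cg ck T hT.sw1.sw2
  · exact RB1 h hh h' h'' bm bc bk bg am ac ak ag mk mg ck cg T hT.sw1.sw2.sw3

theorem J6_le (h : ON e f g) (T : ℝ) (hJ : J6 (Q e f g) T) : 28017 / 5000 ≤ T := by
  obtain ⟨σ, hσ, hJ⟩ := hJ
  have n : ∀ i j : Fin 6, i ≠ j → σ i ≠ σ j := fun i j hij => hσ.ne hij
  rcases hJ with hJ | hJ
  · exact RA_all h (n 0 1 (by decide)) (n 4 5 (by decide)) (n 0 4 (by decide))
      (n 0 5 (by decide)) (n 1 4 (by decide)) (n 1 5 (by decide)) (n 2 0 (by decide))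
      (n 2 1 (by decide)) (n 2 4 (by decide)) (n 2 5 (by decide)) (n 3 0 (by decide))
      (n 3 1 (by decide)) (n 3 4 (by decide)) (n 3 5 (by decide)) (n 2 3 (by decide)) T hJ
  · exact RB_all h (n 0 1 (by decide)) (n 2 3 (by decide)) (n 4 5 (by decide))
      (n 0 2 (by decide)) (n 0 3 (by decide)) (n 0 4 (by decide)) (n 0 5 (by decide))
      (n 1 2 (by decide)) (n 1 3 (by decide)) (n 1 4 (by decide)) (n 1 5 (by decide))
      (n 2 4 (by decide)) (n 2 5 (by decide)) (n 3 4 (by decide)) (n 3 5 (by decide)) T hJ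

/-- every connected set through the six points has length `≥ 28017 / 5000` -/
theorem low (h : ON e f g) (T : Set (E d))
    (hT : IsClosed T) (hTA : IsConnected (T ∪ range (Q e f g))) :
    ENNReal.ofReal (28017 / 5000) ≤ μH[1] T := by
  by_cases hfin : μH[1] T = ∞
  · rw [hfin]; exact le_top
  have hAf : (range (Q e f g)).Finite := finite_range _
  have hX : μH[1] (T ∪ range (Q e f g)) ≤ μH[1] T := by
    refine (measure_union_le _ _).trans ?_
    rw [fin_measure_zero hAf, add_zero]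
  have hXfin : μH[1] (T ∪ range (Q e f g)) ≠ ∞ := ne_top_of_le_ne_top hfin hX
  refine le_trans ?_ hX
  rw [ENNReal.ofReal_le_iff_le_toReal hXfin]
  exact six_lower hTA.isPreconnected (hT.union hAf.isClosed) hXfin (p := Q e f g)
    (fun i => Or.inr (mem_range_self i)) (J6_le h)

end PRI27
end H11ST
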