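import Pool.Agent.Helper27.TET.Tet
import Pool.Agent.Helper33.P5.Low6
open MeasureTheory Metric Set Filter Topology
open scoped ENNReal NNReal

/-!
Project PRISM: six terminals at the corners of a triangular prism.  Coordinates, the six points and
a checker for dual certificates with integer entries.
-/

namespace H11ST
namespace PRI27
open TET27 P6

variable {d : ℕ} {e f g : E d}

/-- coordinates `(√3 x, y, √3 z)` -/
noncomputable def p3 (e f g : E d) (x y z : ℝ) : E d := w3 e f g (√3 * x) y (√3 * z)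

theorem inner_p3 (h : ON e f g) (x y z x' y' z' : ℝ) :
    inner ℝ (p3 e f g x y z) (p3 e f g x' y' z') = 3 * x * x' + y * y' + 3 * z * z' := by
  have h3 := sq3
  rw [p3, p3, inner_w3 h]
  linear_combination (x * x' + z * z') * h3

theorem norm_p3_sq (h : ON e f g) (x y z : ℝ) :
    ‖p3 e f g x y z‖ ^ 2 = 3 * x ^ 2 + y ^ 2 + 3 * z ^ 2 := by
  rw [← real_inner_self_eq_norm_sq, inner_p3 h]; ring

theorem p3_add (x y z x' y' z' : ℝ) :
    p3 e f g x y z + p3 e f g x' y' z' = p3 e f g (x + x') (y + y') (z + z') := by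
  rw [p3, p3, w3_add, p3, mul_add, mul_add]

theorem p3_smul (s x y z : ℝ) : s • p3 e f g x y z = p3 e f g (s * x) (s * y) (s * z) := by
  rw [p3, w3_smul, p3]
  congr 1 <;> ring

theorem p3_zero : p3 e f g 0 0 0 = 0 := by
  rw [p3, mul_zero, w3_zero]

/-- a vector with rational coordinates of common denominator `D` -/
noncomputable def iv (e f g : E d) (D : ℤ) (v : ℤ × ℤ × ℤ) : E d :=
  p3 e f g ((v.1 : ℝ) / D) ((v.2.1 : ℝ) / D) ((v.2.2 : ℝ) / D)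

/-- inner product of integer vectors -/
def ip (v w : ℤ × ℤ × ℤ) : ℤ := 3 * v.1 * w.1 + v.2.1 * w.2.1 + 3 * v.2.2 * w.2.2

/-- sum of integer vectors -/
def av (v w : ℤ × ℤ × ℤ) : ℤ × ℤ × ℤ := (v.1 + w.1, v.2.1 + w.2.1, v.2.2 + w.2.2)

theorem inner_iv (h : ON e f g) {D D' : ℤ} (v w : ℤ × ℤ × ℤ) :
    inner ℝ (iv e f g D v) (iv e f g D' w) = (ip v w : ℝ) / (D * D') := by
  rw [iv, iv, inner_p3 h, ip]
  push_cast
  rcases eq_or_ne (D : ℝ) 0 with h0 | h0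
  · rw [h0]; simp
  rcases eq_or_ne (D' : ℝ) 0 with h1 | h1
  · rw [h1]; simp
  field_simp

theorem iv_add (D : ℤ) (v w : ℤ × ℤ × ℤ) : iv e f g D v + iv e f g D w = iv e f g D (av v w) := by
  rw [iv, iv, p3_add, iv, av]
  push_cast
  rw [add_div, add_div, add_div]

theorem iv_zero (D : ℤ) : iv e f g D (0, 0, 0) = 0 := by
  rw [iv]; simp [p3_zero]

theorem norm_iv (h : ON e f g) {D : ℤ} (hD : 0 < D) {v : ℤ × ℤ × ℤ} (hv : ip v v ≤ D * D) :
    ‖iv e f g D v‖ ≤ 1 := by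
  have h1 : ‖iv e f g D v‖ ^ 2 = (ip v v : ℝ) / (D * D) := by
    rw [← real_inner_self_eq_norm_sq, inner_iv h]
  have hD' : (0 : ℝ) < D := by exact_mod_cast hD
  have hv' : (ip v v : ℝ) ≤ D * D := by exact_mod_cast hv
  have h2 : ‖iv e f g D v‖ ^ 2 ≤ 1 := by
    rw [h1, div_le_one (by positivity)]; exact hv'
  nlinarith [norm_nonneg (iv e f g D v)]

/-- the six terminals, in units of `1 / 20000` -/
def Z : Fin 6 → ℤ × ℤ × ℤ :=
  ![(0, 15534, 7274), (0, 15534, -7274), (7767, -7767, 7274), (7767, -7767, -7274),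
    (-7767, -7767, 7274), (-7767, -7767, -7274)]

/-- the terminals -/
noncomputable def Q (e f g : E d) (i : Fin 6) : E d := iv e f g 20000 (Z i)

/-- the network type `a b | m | k | c g` costs at least `28017 / 5000` -/
def RA (e f g : E d) (a b m k c c' : Fin 6) : Prop :=
  ∀ T, NA (Q e f g a) (Q e f g b) (Q e f g m) (Q e f g k) (Q e f g c) (Q e f g c') T →
    28017 / 5000 ≤ T

/-- the network type `a b | c m | g k` costs at least `28017 / 5000` -/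
def RB (e f g : E d) (a b c m c' k : Fin 6) : Prop :=
  ∀ T, NB (Q e f g a) (Q e f g b) (Q e f g c) (Q e f g m) (Q e f g c') (Q e f g k) T →
    28017 / 5000 ≤ T

/-- a certificate: the type, the denominator and six vectors -/
structure Crt where
  q : Fin 6 × Fin 6 × Fin 6 × Fin 6 × Fin 6 × Fin 6
  D : ℤ
  v1 : ℤ × ℤ × ℤ
  v2 : ℤ × ℤ × ℤ
  v3 : ℤ × ℤ × ℤ
  v4 : ℤ × ℤ × ℤ
  v5 : ℤ × ℤ × ℤ
  v6 : ℤ × ℤ × ℤ

/-- the conditions on the six unit vectors and the value -/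
def ok0 (c : Crt) : Bool :=
  decide (0 < c.D) && decide (ip c.v1 c.v1 ≤ c.D * c.D) && decide (ip c.v2 c.v2 ≤ c.D * c.D) &&
    decide (ip c.v3 c.v3 ≤ c.D * c.D) && decide (ip c.v4 c.v4 ≤ c.D * c.D) &&
    decide (ip c.v5 c.v5 ≤ c.D * c.D) && decide (ip c.v6 c.v6 ≤ c.D * c.D) &&
    decide (av (av (av (av (av c.v1 c.v2) c.v3) c.v4) c.v5) c.v6 = (0, 0, 0)) &&
    decide (112068 * c.D ≤ ip c.v1 (Z c.q.1) + ip c.v2 (Z c.q.2.1) + ip c.v3 (Z c.q.2.2.1) +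
      ip c.v4 (Z c.q.2.2.2.1) + ip c.v5 (Z c.q.2.2.2.2.1) + ip c.v6 (Z c.q.2.2.2.2.2))

/-- the checker for type `NA` -/
def okA (c : Crt) : Bool :=
  ok0 c && decide (ip (av c.v1 c.v2) (av c.v1 c.v2) ≤ c.D * c.D) &&
    decide (ip (av (av c.v1 c.v2) c.v3) (av (av c.v1 c.v2) c.v3) ≤ c.D * c.D) &&
    decide (ip (av c.v5 c.v6) (av c.v5 c.v6) ≤ c.D * c.D)

/-- the checker for type `NB` -/
def okB (c : Crt) : Bool :=
  ok0 c && decide (ip (av c.v1 c.v2) (av c.v1 c.v2) ≤ c.D * c.D) &&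
    decide (ip (av c.v3 c.v4) (av c.v3 c.v4) ≤ c.D * c.D) &&
    decide (ip (av c.v5 c.v6) (av c.v5 c.v6) ≤ c.D * c.D)

theorem value {D : ℤ} (hD : 0 < D) {a : ℤ} (ha : 112068 * D ≤ a) :
    (28017 / 5000 : ℝ) ≤ (a : ℝ) / (D * (20000 : ℤ)) := by
  have hD' : (0 : ℝ) < D := by exact_mod_cast hD
  have ha' : (112068 * D : ℝ) ≤ a := by exact_mod_cast ha
  rw [le_div_iff₀ (by positivity)]
  push_cast
  linarith

theorem soundA (h : ON e f g) {c : Crt} (hc : okA c = true) :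
    RA e f g c.q.1 c.q.2.1 c.q.2.2.1 c.q.2.2.2.1 c.q.2.2.2.2.1 c.q.2.2.2.2.2 := by
  simp only [okA, ok0, Bool.and_eq_true, decide_eq_true_eq] at hc
  obtain ⟨⟨⟨⟨⟨⟨⟨⟨⟨⟨⟨h0, h1⟩, h2⟩, h3⟩, h4⟩, h5⟩, h6⟩, h7⟩, h8⟩, h9⟩, h10⟩, h11⟩ := hc
  intro T hT
  have k := NA_lower hT (norm_iv h h0 h1) (norm_iv h h0 h2) (norm_iv h h0 h3) (norm_iv h h0 h4)
    (norm_iv h h0 h5) (norm_iv h h0 h6)
    (by rw [iv_add, iv_add, iv_add, iv_add, iv_add, h7, iv_zero])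
    (by rw [iv_add]; exact norm_iv h h0 h9) (by rw [iv_add, iv_add]; exact norm_iv h h0 h10)
    (by rw [iv_add]; exact norm_iv h h0 h11)
  refine (value h0 h8).trans (le_trans (le_of_eq ?_) k)
  simp only [Q, inner_iv h]
  push_cast
  ring

theorem soundB (h : ON e f g) {c : Crt} (hc : okB c = true) :
    RB e f g c.q.1 c.q.2.1 c.q.2.2.1 c.q.2.2.2.1 c.q.2.2.2.2.1 c.q.2.2.2.2.2 := by
  simp only [okB, ok0, Bool.and_eq_true, decide_eq_true_eq] at hc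
  obtain ⟨⟨⟨⟨⟨⟨⟨⟨⟨⟨⟨h0, h1⟩, h2⟩, h3⟩, h4⟩, h5⟩, h6⟩, h7⟩, h8⟩, h9⟩, h10⟩, h11⟩ := hc
  intro T hT
  have k := NB_lower hT (norm_iv h h0 h1) (norm_iv h h0 h2) (norm_iv h h0 h3) (norm_iv h h0 h4)
    (norm_iv h h0 h5) (norm_iv h h0 h6)
    (by rw [iv_add, iv_add, iv_add, iv_add, iv_add, h7, iv_zero])
    (by rw [iv_add]; exact norm_iv h h0 h9) (by rw [iv_add]; exact norm_iv h h0 h10)
    (by rw [iv_add]; exact norm_iv h h0 h11)
  refine (value h0 h8).trans (le_trans (le_of_eq ?_) k)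
  simp only [Q, inner_iv h]
  push_cast
  ring

end PRI27
end H11ST
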