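import Pool.Agent.Helper27.PRI.Pts

/-! Dual certificates for the six points of `Pts` (printed by a program). -/

namespace H11ST
namespace PRI27

/-- certificates for the ninety types -/
def tabA : List Crt := [
  ⟨(0, 1, 4, 5, 2, 3), 40, (3, 20, 19), (2, 19, -20), (-13, -15, 17), (-14, -12, -17), (11, -6,
    20), (11, -6, -19)⟩,
  ⟨(0, 1, 5, 4, 2, 3), 40, (2, 19, 20), (3, 20, -19), (-13, -15, -17), (-14, -12, 17), (11, -6,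
    19), (11, -6, -20)⟩,
  ⟨(0, 1, 3, 5, 2, 4), 100, (-1, 39, 53), (-2, 59, -46), (44, -40, -28), (-43, -30, -33), (51,
    -13, 26), (-49, -15, 28)⟩,
  ⟨(0, 1, 5, 3, 2, 4), 100, (1, 39, 53), (2, 59, -46), (-44, -40, -28), (43, -30, -33), (49, -15,
    29), (-51, -13, 25)⟩,
  ⟨(0, 1, 3, 4, 2, 5), 40, (-1, 18, 20), (-1, 21, -19), (15, -16, -14), (-16, -8, 15), (17, -7,
    14), (-14, -8, -16)⟩,
  ⟨(0, 1, 4, 3, 2, 5), 100, (3, 54, 48), (3, 45, -51), (-39, -40, 35), (40, -21, -39), (37, -19,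
    42), (-44, -19, -35)⟩,
  ⟨(0, 1, 2, 5, 3, 4), 40, (-1, 21, 19), (-1, 18, -20), (15, -16, 14), (-16, -8, -15), (17, -7,
    -14), (-14, -8, 16)⟩,
  ⟨(0, 1, 5, 2, 3, 4), 100, (3, 45, 51), (3, 54, -48), (-39, -40, -35), (40, -21, 39), (37, -19,
    -42), (-44, -19, 35)⟩,
  ⟨(0, 1, 2, 4, 3, 5), 100, (-2, 59, 46), (-1, 39, -53), (44, -40, 28), (-43, -30, 33), (51, -13,
    -26), (-49, -15, -28)⟩,
  ⟨(0, 1, 4, 2, 3, 5), 100, (2, 59, 46), (1, 39, -53), (-44, -40, 28), (43, -30, 33), (49, -15,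
    -29), (-51, -13, -25)⟩,
  ⟨(0, 1, 2, 3, 4, 5), 40, (-3, 20, 19), (-2, 19, -20), (13, -15, 17), (14, -12, -17), (-11, -6,
    20), (-11, -6, -19)⟩,
  ⟨(0, 1, 3, 2, 4, 5), 40, (-2, 19, 20), (-3, 20, -19), (13, -15, -17), (14, -12, 17), (-11, -6,
    19), (-11, -6, -20)⟩,
  ⟨(0, 2, 4, 5, 1, 3), 5000, (-167, 4830, 721), (2331, -2666, 721), (-2164, -2164, 1443), (-2164,
    -2164, -1443), (-167, 4830, -721), (2331, -2666, -721)⟩,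
  ⟨(0, 2, 5, 4, 1, 3), 100, (-8, 92, 21), (42, -58, 21), (-34, -34, -42), (-34, -34, 42), (-8, 92,
    -21), (42, -58, -21)⟩,
  ⟨(0, 2, 3, 5, 1, 4), 20, (-3, 17, 4), (7, -12, 6), (7, -7, -7), (-7, -9, -7), (2, 17, -5), (-6,
    -6, 9)⟩,
  ⟨(0, 2, 5, 3, 1, 4), 20, (-2, 17, 5), (7, -12, 5), (-8, -8, -6), (9, -7, -6), (1, 17, -6), (-7,
    -7, 8)⟩,
  ⟨(0, 2, 3, 4, 1, 5), 100, (-16, 88, 21), (37, -57, 29), (35, -31, -42), (-35, -31, 42), (16, 88,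
    -21), (-37, -57, -29)⟩,
  ⟨(0, 2, 4, 3, 1, 5), 400, (-22, 381, 65), (182, -213, 69), (-187, -168, 94), (187, -168, -94),
    (22, 381, -65), (-182, -213, -69)⟩,
  ⟨(0, 2, 1, 5, 3, 4), 20, (-2, 16, 6), (7, -14, 4), (0, 15, -7), (-8, -7, -7), (9, -5, -5), (-6,
    -5, 9)⟩,
  ⟨(0, 2, 5, 1, 3, 4), 20, (-2, 17, 5), (7, -12, 5), (-8, -8, -6), (1, 17, -6), (9, -7, -6), (-7,
    -7, 8)⟩,
  ⟨(0, 2, 1, 4, 3, 5), 100, (-10, 84, 29), (36, -68, 21), (2, 68, -42), (-33, -37, 42), (52, -20,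
    -21), (-47, -27, -29)⟩,
  ⟨(0, 2, 4, 1, 3, 5), 400, (-15, 380, 69), (179, -224, 65), (-178, -196, 94), (9, 364, -94),
    (202, -157, -65), (-197, -167, -69)⟩,
  ⟨(0, 2, 1, 3, 4, 5), 200, (-34, 161, 58), (64, -139, 52), (-14, 160, -67), (85, -92, -57), (-40,
    -36, 106), (-61, -54, -92)⟩,
  ⟨(0, 2, 3, 1, 4, 5), 200, (-37, 166, 52), (64, -131, 58), (73, -100, -67), (-4, 173, -57), (-38,
    -43, 106), (-58, -65, -92)⟩,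
  ⟨(0, 3, 4, 5, 1, 2), 20, (0, 15, 7), (7, -7, -7), (-7, -7, 7), (-7, -7, -7), (0, 15, -7), (7,
    -9, 7)⟩,
  ⟨(0, 3, 5, 4, 1, 2), 20, (0, 15, 7), (7, -7, -7), (-7, -7, -7), (-7, -7, 7), (0, 15, -7), (7,
    -9, 7)⟩,
  ⟨(0, 3, 2, 5, 1, 4), 40, (-5, 32, 12), (11, -15, -18), (13, -17, 15), (-13, -17, -15), (5, 32,
    -12), (-11, -15, 18)⟩,
  ⟨(0, 3, 5, 2, 1, 4), 20, (0, 15, 7), (7, -7, -7), (-7, -7, -7), (7, -7, 7), (0, 15, -7), (-7,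
    -9, 7)⟩,
  ⟨(0, 3, 2, 4, 1, 5), 40, (-4, 34, 10), (11, -13, -18), (15, -17, 14), (-15, -14, 15), (7, 34,
    -9), (-14, -24, -12)⟩,
  ⟨(0, 3, 4, 2, 1, 5), 20, (-1, 17, 6), (7, -7, -8), (-9, -7, 6), (8, -8, 6), (2, 17, -5), (-7,
    -12, -5)⟩,
  ⟨(0, 3, 1, 5, 2, 4), 40, (-1, 23, 18), (15, -23, -10), (-1, 31, -14), (-15, -15, -15), (20, -7,
    9), (-18, -9, 12)⟩,
  ⟨(0, 3, 5, 1, 2, 4), 20, (0, 13, 8), (8, -10, -6), (-8, -10, -6), (0, 16, -6), (10, -5, 5),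
    (-10, -4, 5)⟩,
  ⟨(0, 3, 1, 4, 2, 5), 40, (-2, 24, 17), (14, -23, -12), (-2, 29, -15), (-15, -11, 15), (18, -9,
    12), (-13, -10, -17)⟩,
  ⟨(0, 3, 4, 1, 2, 5), 20, (0, 15, 7), (7, -7, -7), (-7, -7, 7), (0, 15, -7), (7, -7, 7), (-7, -9,
    -7)⟩,
  ⟨(0, 3, 1, 2, 4, 5), 100, (-9, 66, 42), (32, -57, -35), (-10, 71, -39), (39, -39, 35), (-29,
    -22, 48), (-23, -19, -51)⟩,
  ⟨(0, 3, 2, 1, 4, 5), 40, (-5, 30, 14), (11, -18, -17), (12, -20, 16), (0, 31, -14), (-8, -10,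
    20), (-10, -13, -19)⟩,
  ⟨(0, 4, 3, 5, 1, 2), 20, (2, 17, 5), (-7, -12, 5), (8, -8, -6), (-9, -7, -6), (-1, 17, -6), (7,
    -7, 8)⟩,
  ⟨(0, 4, 5, 3, 1, 2), 20, (3, 17, 4), (-7, -12, 6), (-7, -7, -7), (7, -9, -7), (-2, 17, -5), (6,
    -6, 9)⟩,
  ⟨(0, 4, 2, 5, 1, 3), 400, (22, 381, 65), (-182, -213, 69), (187, -168, 94), (-187, -168, -94),
    (-22, 381, -65), (182, -213, -69)⟩,
  ⟨(0, 4, 5, 2, 1, 3), 100, (16, 88, 21), (-37, -57, 29), (-35, -31, -42), (35, -31, 42), (-16,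
    88, -21), (37, -57, -29)⟩,
  ⟨(0, 4, 2, 3, 1, 5), 5000, (167, 4830, 721), (-2331, -2666, 721), (2164, -2164, 1443), (2164,
    -2164, -1443), (167, 4830, -721), (-2331, -2666, -721)⟩,
  ⟨(0, 4, 3, 2, 1, 5), 100, (8, 92, 21), (-42, -58, 21), (34, -34, -42), (34, -34, 42), (8, 92,
    -21), (-42, -58, -21)⟩,
  ⟨(0, 4, 1, 5, 2, 3), 200, (34, 161, 58), (-64, -139, 52), (14, 160, -67), (-85, -92, -57), (40,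
    -36, 106), (61, -54, -92)⟩,
  ⟨(0, 4, 5, 1, 2, 3), 200, (37, 166, 52), (-64, -131, 58), (-73, -100, -67), (4, 173, -57), (38,
    -43, 106), (58, -65, -92)⟩,
  ⟨(0, 4, 1, 3, 2, 5), 20, (2, 16, 6), (-7, -14, 4), (0, 15, -7), (8, -7, -7), (6, -5, 9), (-9,
    -5, -5)⟩,
  ⟨(0, 4, 3, 1, 2, 5), 20, (2, 17, 5), (-7, -12, 5), (8, -8, -6), (-1, 17, -6), (7, -7, 8), (-9,
    -7, -6)⟩,
  ⟨(0, 4, 1, 2, 3, 5), 40, (4, 33, 11), (-14, -27, 8), (-1, 27, -16), (13, -15, 16), (19, -11,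
    -11), (-21, -7, -8)⟩,
  ⟨(0, 4, 2, 1, 3, 5), 400, (15, 380, 69), (-179, -224, 65), (177, -196, 94), (-9, 364, -94),
    (197, -167, -69), (-201, -157, -65)⟩,
  ⟨(0, 5, 3, 4, 1, 2), 20, (0, 15, 7), (-7, -7, -7), (7, -7, -7), (-7, -7, 7), (0, 15, -7), (7,
    -9, 7)⟩,
  ⟨(0, 5, 4, 3, 1, 2), 40, (5, 32, 12), (-11, -15, -18), (-13, -17, 15), (13, -17, -15), (-5, 32,
    -12), (11, -15, 18)⟩,
  ⟨(0, 5, 2, 4, 1, 3), 20, (1, 17, 6), (-7, -7, -8), (9, -7, 6), (-8, -8, 6), (-2, 17, -5), (7,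
    -12, -5)⟩,
  ⟨(0, 5, 4, 2, 1, 3), 40, (4, 34, 10), (-11, -13, -18), (-15, -17, 14), (15, -14, 15), (-7, 34,
    -9), (14, -24, -12)⟩,
  ⟨(0, 5, 2, 3, 1, 4), 20, (0, 15, 7), (-7, -7, -7), (7, -7, 7), (7, -7, -7), (0, 15, -7), (-7,
    -9, 7)⟩,
  ⟨(0, 5, 3, 2, 1, 4), 20, (0, 15, 7), (-7, -7, -7), (7, -7, -7), (7, -7, 7), (0, 15, -7), (-7,
    -9, 7)⟩,
  ⟨(0, 5, 1, 4, 2, 3), 100, (9, 66, 42), (-32, -57, -35), (10, 71, -39), (-39, -39, 35), (29, -22,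
    48), (23, -19, -51)⟩,
  ⟨(0, 5, 4, 1, 2, 3), 40, (5, 30, 14), (-11, -18, -17), (-12, -20, 16), (0, 31, -14), (8, -10,
    20), (10, -13, -19)⟩,
  ⟨(0, 5, 1, 3, 2, 4), 40, (1, 23, 18), (-15, -23, -10), (1, 31, -14), (14, -15, -15), (18, -9,
    12), (-19, -7, 9)⟩,
  ⟨(0, 5, 3, 1, 2, 4), 20, (0, 13, 8), (-8, -10, -6), (8, -10, -6), (0, 16, -6), (10, -5, 5),
    (-10, -4, 5)⟩,
  ⟨(0, 5, 1, 2, 3, 4), 40, (2, 24, 17), (-14, -23, -12), (2, 29, -15), (15, -11, 15), (13, -10,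
    -17), (-18, -9, 12)⟩,
  ⟨(0, 5, 2, 1, 3, 4), 20, (0, 15, 7), (-7, -7, -7), (7, -7, 7), (0, 15, -7), (7, -7, -7), (-7,
    -9, 7)⟩,
  ⟨(1, 2, 0, 5, 3, 4), 40, (-2, 24, -17), (14, -23, 12), (-2, 29, 15), (-15, -11, -15), (18, -9,
    -12), (-13, -10, 17)⟩,
  ⟨(1, 2, 5, 0, 3, 4), 20, (0, 15, -7), (7, -7, 7), (-7, -7, -7), (0, 15, 7), (7, -7, -7), (-7,
    -9, 7)⟩,
  ⟨(1, 2, 0, 4, 3, 5), 40, (-1, 23, -18), (15, -23, 10), (-1, 31, 14), (-15, -15, 15), (20, -7,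
    -9), (-18, -9, -12)⟩,
  ⟨(1, 2, 4, 0, 3, 5), 20, (0, 13, -8), (8, -10, 6), (-8, -10, 6), (0, 16, 6), (10, -5, -5), (-10,
    -4, -5)⟩,
  ⟨(1, 2, 0, 3, 4, 5), 40, (-4, 26, -17), (12, -23, 14), (-4, 28, 15), (16, -15, -14), (-9, -7,
    20), (-11, -9, -18)⟩,
  ⟨(1, 2, 3, 0, 4, 5), 40, (-5, 30, -14), (11, -18, 17), (12, -20, -16), (0, 31, 14), (-10, -13,
    19), (-8, -10, -20)⟩,
  ⟨(1, 3, 0, 5, 2, 4), 100, (-10, 84, -29), (36, -68, -21), (2, 68, 42), (-33, -37, -42), (52,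
    -20, 21), (-47, -27, 29)⟩,
  ⟨(1, 3, 5, 0, 2, 4), 400, (-15, 380, -69), (179, -224, -65), (-178, -196, -94), (9, 364, 94),
    (202, -157, 65), (-197, -167, 69)⟩,
  ⟨(1, 3, 0, 4, 2, 5), 20, (-2, 16, -6), (7, -14, -4), (0, 15, 7), (-8, -7, 7), (9, -5, 5), (-6,
    -5, -9)⟩,
  ⟨(1, 3, 4, 0, 2, 5), 20, (-2, 17, -5), (7, -12, -5), (-8, -8, 6), (1, 17, 6), (9, -7, 6), (-7,
    -7, -8)⟩,
  ⟨(1, 3, 0, 2, 4, 5), 100, (-17, 80, -29), (32, -69, -26), (-7, 80, 33), (42, -46, 28), (-30,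
    -27, 46), (-20, -18, -52)⟩,
  ⟨(1, 3, 2, 0, 4, 5), 100, (-19, 82, -26), (32, -65, -29), (36, -50, 33), (-2, 86, 28), (-29,
    -32, 46), (-18, -21, -52)⟩,
  ⟨(1, 4, 0, 5, 2, 3), 40, (4, 26, -17), (-12, -23, 14), (4, 28, 15), (-16, -15, -14), (9, -7,
    20), (11, -9, -18)⟩,
  ⟨(1, 4, 5, 0, 2, 3), 40, (5, 30, -14), (-11, -18, 17), (-12, -20, -16), (0, 31, 14), (10, -13,
    19), (8, -10, -20)⟩,
  ⟨(1, 4, 0, 3, 2, 5), 40, (2, 24, -17), (-14, -23, 12), (2, 29, 15), (15, -11, -15), (13, -10,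
    17), (-18, -9, -12)⟩,
  ⟨(1, 4, 3, 0, 2, 5), 20, (0, 15, -7), (-7, -7, 7), (7, -7, -7), (0, 15, 7), (7, -7, 7), (-7, -9,
    -7)⟩,
  ⟨(1, 4, 0, 2, 3, 5), 40, (1, 23, -18), (-15, -23, 10), (1, 31, 14), (14, -15, 15), (18, -9,
    -12), (-19, -7, -9)⟩,
  ⟨(1, 4, 2, 0, 3, 5), 20, (0, 13, -8), (-8, -10, 6), (8, -10, 6), (0, 16, 6), (10, -5, -5), (-10,
    -4, -5)⟩,
  ⟨(1, 5, 0, 4, 2, 3), 100, (17, 80, -29), (-32, -69, -26), (7, 80, 33), (-42, -46, 28), (30, -27,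
    46), (20, -18, -52)⟩,
  ⟨(1, 5, 4, 0, 2, 3), 100, (19, 82, -26), (-32, -65, -29), (-36, -50, 33), (2, 86, 28), (29, -32,
    46), (18, -21, -52)⟩,
  ⟨(1, 5, 0, 3, 2, 4), 40, (4, 33, -11), (-14, -27, -8), (-1, 27, 16), (13, -15, -16), (19, -11,
    11), (-21, -7, 8)⟩,
  ⟨(1, 5, 3, 0, 2, 4), 400, (15, 380, -69), (-179, -224, -65), (177, -196, -94), (-9, 364, 94),
    (197, -167, 69), (-201, -157, 65)⟩,
  ⟨(1, 5, 0, 2, 3, 4), 20, (2, 16, -6), (-7, -14, -4), (0, 15, 7), (8, -7, 7), (6, -5, -9), (-9,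
    -5, 5)⟩,
  ⟨(1, 5, 2, 0, 3, 4), 20, (2, 17, -5), (-7, -12, -5), (8, -8, 6), (-1, 17, 6), (7, -7, -8), (-9,
    -7, 6)⟩,
  ⟨(2, 3, 0, 1, 4, 5), 20, (4, -7, 10), (4, -7, -10), (0, 14, 8), (0, 14, -8), (-4, -7, 10), (-4,
    -7, -10)⟩,
  ⟨(2, 3, 1, 0, 4, 5), 20, (4, -7, 10), (4, -7, -10), (0, 14, -8), (0, 14, 8), (-4, -7, 10), (-4,
    -7, -10)⟩,
  ⟨(2, 4, 0, 1, 3, 5), 5000, (2499, -2164, 721), (-2499, -2164, 721), (0, 4328, 1443), (0, 4328,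
    -1443), (2499, -2164, -721), (-2499, -2164, -721)⟩,
  ⟨(2, 4, 1, 0, 3, 5), 20, (10, -7, 4), (-10, -7, 4), (0, 14, -8), (0, 14, 8), (10, -7, -4), (-10,
    -7, -4)⟩,
  ⟨(2, 5, 0, 1, 3, 4), 20, (7, -7, 7), (-7, -7, -7), (0, 15, 7), (0, 15, -7), (7, -7, -7), (-7,
    -9, 7)⟩,
  ⟨(2, 5, 1, 0, 3, 4), 20, (7, -7, 7), (-7, -7, -7), (0, 15, -7), (0, 15, 7), (7, -7, -7), (-7,
    -9, 7)⟩]

/-- certificates for the fifteen types -/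
def tabB : List Crt := [
  ⟨(0, 1, 2, 3, 4, 5), 20, (0, 10, 10), (0, 10, -10), (5, -5, 10), (5, -5, -10), (-5, -5, 10),
    (-5, -5, -10)⟩,
  ⟨(0, 1, 2, 4, 3, 5), 20, (0, 10, 10), (0, 10, -10), (10, -5, 5), (-10, -5, 5), (10, -5, -5),
    (-10, -5, -5)⟩,
  ⟨(0, 1, 2, 5, 3, 4), 20, (0, 10, 10), (0, 10, -10), (8, -5, 7), (-8, -5, -7), (8, -5, -7), (-8,
    -5, 7)⟩,
  ⟨(0, 2, 1, 3, 4, 5), 40, (-5, 35, 10), (15, -25, 10), (-5, 35, -10), (15, -25, -10), (-10, -10,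
    20), (-10, -10, -20)⟩,
  ⟨(0, 2, 1, 4, 3, 5), 40, (-4, 35, 10), (15, -25, 9), (2, 30, -15), (-14, -18, 15), (20, -11,
    -9), (-19, -11, -10)⟩,
  ⟨(0, 2, 1, 5, 3, 4), 40, (-5, 35, 9), (15, -23, 10), (5, 35, -9), (-15, -23, -10), (16, -12,
    -15), (-16, -12, 15)⟩,
  ⟨(0, 3, 1, 2, 4, 5), 40, (-3, 29, 15), (13, -19, -15), (-3, 29, -15), (13, -19, 15), (-10, -10,
    20), (-10, -10, -20)⟩,
  ⟨(0, 3, 1, 4, 2, 5), 20, (0, 15, 7), (7, -7, -7), (0, 15, -7), (-7, -7, 7), (7, -7, 7), (-7, -9,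
    -7)⟩,
  ⟨(0, 3, 1, 5, 2, 4), 40, (-2, 30, 15), (14, -18, -15), (4, 35, -10), (-15, -25, -9), (19, -12,
    10), (-20, -10, 9)⟩,
  ⟨(0, 4, 1, 2, 3, 5), 40, (4, 35, 10), (-15, -25, 9), (-2, 30, -15), (14, -18, 15), (19, -12,
    -10), (-20, -10, -9)⟩,
  ⟨(0, 4, 1, 3, 2, 5), 40, (5, 35, 9), (-15, -23, 10), (-5, 35, -9), (15, -23, -10), (16, -12,
    15), (-16, -12, -15)⟩,
  ⟨(0, 4, 1, 5, 2, 3), 40, (5, 35, 10), (-15, -25, 10), (5, 35, -10), (-15, -25, -10), (10, -10,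
    20), (10, -10, -20)⟩,
  ⟨(0, 5, 1, 2, 3, 4), 20, (0, 15, 7), (-7, -7, -7), (0, 15, -7), (7, -7, 7), (7, -7, -7), (-7,
    -9, 7)⟩,
  ⟨(0, 5, 1, 3, 2, 4), 40, (2, 30, 15), (-14, -18, -15), (-4, 35, -10), (15, -25, -9), (20, -11,
    9), (-19, -11, 10)⟩,
  ⟨(0, 5, 1, 4, 2, 3), 40, (3, 29, 15), (-13, -19, -15), (3, 29, -15), (-13, -19, 15), (10, -10,
    20), (10, -10, -20)⟩]

theorem tabA_ok : tabA.all okA = true := by decide +kernel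

theorem tabB_ok : tabB.all okB = true := by decide +kernel

theorem tabA_map : tabA.map (fun c => c.q) = P6.L90 := by decide +kernel

theorem tabB_map : tabB.map (fun c => c.q) = P6.L15 := by decide +kernel

end PRI27
end H11ST
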